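import Mathlib

/-! The unit group of the quaternions over `ℤ/64` is an indecomposable 2-group which is not the
unit group of a finite ring of characteristic 2. -/

set_option autoImplicit false

namespace Pool.Agent.Results.MP_aafbbc_al.Quat64

open Quaternion

/-- `G` is the unit group of a finite ring in which `1` has additive order `n`. -/
def Realizable (G : Type) [Group G] (n : ℕ) : Prop :=
  ∃ (R : Type) (_ : Ring R), Finite R ∧ addOrderOf (1 : R) = n ∧ Nonempty (Rˣ ≃* G)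

/-- `G` is not a direct product of two nontrivial groups. -/
def Indec (G : Type) [Group G] : Prop :=
  ∀ (A B : Type) [Group A] [Group B], Nonempty (G ≃* A × B) → Subsingleton A ∨ Subsingleton B

abbrev K := ZMod 64
abbrev H := ℍ[K]

instance : Finite H := Finite.of_equiv _ (QuaternionAlgebra.equivTuple (-1 : K) 0 (-1)).symm

theorem hU (x : H) (c : K) (h : normSq x * c = 1) : IsUnit x := by
  refine ⟨⟨x, star x * (c : H), ?_, ?_⟩, rfl⟩
  · rw [← mul_assoc, self_mul_star, ← coe_mul, h, coe_one]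
  · rw [mul_assoc, coe_commutes, ← mul_assoc, star_mul_self, ← coe_mul, h, coe_one]

theorem odd (x : Hˣ) : ∃ t : K, normSq (x : H) = 2 * t + 1 := by
  have : normSq (x : H) * normSq (x⁻¹ : Hˣ).1 = 1 := by rw [← map_mul]; simp
  exact (by decide +kernel : ∀ a b : K, a * b = 1 → ∃ t : K, a = 2 * t + 1) _ _ this

theorem expo (x : Hˣ) : x ^ 64 = 1 := by
  have key : ∀ k : ℕ, ∃ y : H, (x : H) ^ 2 ^ (k + 1) = 1 + (2 : K) ^ (k + 1) • y := by
    intro k
    induction k with
    | zero =>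
      obtain ⟨t, ht⟩ := odd x
      refine ⟨(x : H).re • x - (t + 1) • 1, ?_⟩
      rw [normSq_def'] at ht
      ext <;> simp [pow_two]
      · linear_combination -ht
      all_goals ring
    | succ k ih =>
      obtain ⟨y, hy⟩ := ih
      refine ⟨y + (2 : K) ^ k • (y * y), ?_⟩
      rw [pow_succ 2 (k + 1), pow_mul, hy, pow_two]
      simp only [mul_add, add_mul, mul_one, one_mul, smul_mul_smul_comm, smul_add, smul_smul]
      module
  obtain ⟨y, hy⟩ := key 5
  rw [(by decide : (2 : K) ^ (5 + 1) = 0), zero_smul, add_zero] at hy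
  exact Units.ext hy

theorem cross (v1 v2 v3 w1 w2 w3 u1 u2 u3 c : K) (hc : c * v1 = 1)
    (h1 : 2 * (v2 * w3 - v3 * w2) = 0) (h2 : 2 * (v3 * w1 - v1 * w3) = 0)
    (h3 : 2 * (v1 * w2 - v2 * w1) = 0) (k1 : 2 * (v2 * u3 - v3 * u2) = 0)
    (k2 : 2 * (v3 * u1 - v1 * u3) = 0) (k3 : 2 * (v1 * u2 - v2 * u1) = 0) :
    2 * (w2 * u3 - w3 * u2) = 0 ∧ 2 * (w3 * u1 - w1 * u3) = 0 ∧ 2 * (w1 * u2 - w2 * u1) = 0 :=
  ⟨by linear_combination c * (u3 * h3 + u2 * h2 + w1 * k1) - 2 * (w2 * u3 - w3 * u2) * hc,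
    by linear_combination c * (w1 * k2 - u1 * h2) - 2 * (w3 * u1 - w1 * u3) * hc,
    by linear_combination c * (w1 * k3 - u1 * h3) - 2 * (w1 * u2 - w2 * u1) * hc⟩

theorem comm_iff (x y : H) : x * y = y * x ↔ 2 * (x.imJ * y.imK - x.imK * y.imJ) = 0 ∧
    2 * (x.imK * y.imI - x.imI * y.imK) = 0 ∧ 2 * (x.imI * y.imJ - x.imJ * y.imI) = 0 := by
  constructor
  · intro h
    have h1 := congrArg QuaternionAlgebra.imI h
    have h2 := congrArg QuaternionAlgebra.imJ h
    have h3 := congrArg QuaternionAlgebra.imK h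
    simp only [imI_mul, imJ_mul, imK_mul] at h1 h2 h3
    exact ⟨by linear_combination h1, by linear_combination h2, by linear_combination h3⟩
  · rintro ⟨h1, h2, h3⟩
    ext <;> simp only [re_mul, imI_mul, imJ_mul, imK_mul]
    · ring
    · linear_combination h1
    · linear_combination h2
    · linear_combination h3

/-- Even pure part. -/
def Ev (x : H) : Prop := ∃ a b c : K, x.imI = 2 * a ∧ x.imJ = 2 * b ∧ x.imK = 2 * c

theorem trans_comm (x y z : H) (hx : ¬ Ev x) (h : x * y = y * x) (k : x * z = z * x) :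
    y * z = z * y := by
  rw [comm_iff] at *
  obtain ⟨h1, h2, h3⟩ := h
  obtain ⟨k1, k2, k3⟩ := k
  have e : ∀ a : K, (∃ b, a = 2 * b) ∨ ∃ c, c * a = 1 := by decide +kernel
  rcases e x.imI with ⟨a, ha⟩ | ⟨c, hc⟩
  · rcases e x.imJ with ⟨b, hb⟩ | ⟨c, hc⟩
    · rcases e x.imK with ⟨d, hd⟩ | ⟨c, hc⟩
      · exact absurd ⟨a, b, d, ha, hb, hd⟩ hx
      · obtain ⟨r1, r2, r3⟩ := cross _ _ _ _ _ _ _ _ _ c hc h3 h1 h2 k3 k1 k2
        exact ⟨r2, r3, r1⟩
    · obtain ⟨r1, r2, r3⟩ := cross _ _ _ _ _ _ _ _ _ c hc h2 h3 h1 k2 k3 k1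
      exact ⟨r3, r1, r2⟩
  · exact cross _ _ _ _ _ _ _ _ _ c hc h1 h2 h3 k1 k2 k3

def ui : Hˣ := ⟨⟨0, 1, 0, 0⟩, ⟨0, -1, 0, 0⟩, by ext <;> simp, by ext <;> simp⟩
def uj : Hˣ := ⟨⟨0, 0, 1, 0⟩, ⟨0, 0, -1, 0⟩, by ext <;> simp, by ext <;> simp⟩
def five : Hˣ := ⟨((5 : K) : H), ((13 : K) : H), by rw [← coe_mul]; rfl, by rw [← coe_mul]; rfl⟩

theorem cen (z : Hˣ) (hz : ∀ g, g * z = z * g) : ∃ p q r : K, (z : H).imI = 32 * p ∧
    (z : H).imJ = 32 * q ∧ (z : H).imK = 32 * r ∧ ∃ t, (z : H).re = 2 * t + 1 := by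
  have h1 := (comm_iff _ _).1 (congrArg Units.val (hz ui))
  have h2 := (comm_iff _ _).1 (congrArg Units.val (hz uj))
  simp only [ui, uj] at h1 h2
  have e : ∀ a : K, 2 * a = 0 → ∃ p, a = 32 * p := by decide +kernel
  obtain ⟨p, hp⟩ := e (z : H).imI (by linear_combination -h2.2.2)
  obtain ⟨q, hq⟩ := e (z : H).imJ (by linear_combination h1.2.2)
  obtain ⟨r, hr⟩ := e (z : H).imK (by linear_combination h2.1)
  refine ⟨p, q, r, hp, hq, hr, ?_⟩
  obtain ⟨t, ht⟩ := odd z
  rw [normSq_def', hp, hq, hr] at ht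
  exact (by decide +kernel : ∀ a t : K, a ^ 2 = 2 * t + 1 → ∃ t, a = 2 * t + 1) _
    (t - 512 * (p ^ 2 + q ^ 2 + r ^ 2)) (by linear_combination ht)

theorem h64 : (64 : K) = 0 := by decide

theorem half {A B : Type} [Group A] [Group B] (e : Hˣ ≃* A × B) (a : A)
    (ha : ¬ Ev (e.symm (a, 1) : Hˣ)) : Subsingleton B := by
  have hc : ∀ (a : A) (b : B), e.symm (a, 1) * e.symm (1, b) = e.symm (1, b) * e.symm (a, 1) :=
    fun a b => by rw [← map_mul, ← map_mul]; simp
  have hb : ∀ b b' : B, b * b' = b' * b := fun b b' => by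
    have : e.symm (1, b) * e.symm (1, b') = e.symm (1, b') * e.symm (1, b) := Units.ext
      (trans_comm _ _ _ ha (congrArg Units.val (hc a b)) (congrArg Units.val (hc a b')))
    rw [← map_mul, ← map_mul] at this
    exact congrArg Prod.snd (e.symm.injective this)
  letI : CommGroup B := { (inferInstance : Group B) with mul_comm := hb }
  have sq : ∀ b : B, ∃ c : B, b = c ^ 2 := by
    intro b
    obtain ⟨p, q, r, hp, hq, hr, t, ht⟩ := cen (e.symm (1, b)) fun g => by
      apply e.injective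
      simp only [map_mul, MulEquiv.apply_symm_apply]
      exact Prod.ext (by simp) (hb _ _)
    obtain ⟨s, u, hn⟩ := (by decide +kernel : ∀ t : K, ∃ s : K, ∃ u : Fin 3,
      2 * t + 1 = s ^ 2 + (u : K) ^ 2 ∨ 2 * t + 1 = -(s ^ 2 + (u : K) ^ 2)) t
    obtain ⟨c, hc⟩ := (by decide +kernel : ∀ t : K, ∃ c : K, (2 * t + 1) * c = 1) t
    obtain ⟨x, hx⟩ : ∃ x : Hˣ, (x : H) = ⟨s, u, 0, 0⟩ := by
      rcases hn with hn | hn
      · exact hU _ c (by rw [normSq_def']; simp only; linear_combination hc - c * hn)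
      · exact hU _ (-c) (by rw [normSq_def']; simp only; linear_combination hc - c * hn)
    obtain ⟨y, hy⟩ := hU ⟨1, 16 * p, 16 * q, 16 * r⟩ 1 (by
      rw [normSq_def']; simp only
      linear_combination (4 * (p ^ 2 + q ^ 2 + r ^ 2)) * h64)
    have h1 : ((uj * x * uj⁻¹ * x : Hˣ) : H) = ((s ^ 2 + (u : K) ^ 2 : K) : H) := by
      simp only [Units.val_mul, hx, uj, Units.inv_mk]
      ext <;> simp only [re_mul, imI_mul, imJ_mul, imK_mul, re_coe, imI_coe, imJ_coe, imK_coe] <;>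
        ring
    have h2 : ((y * y : Hˣ) : H) = ⟨1, 32 * p, 32 * q, 32 * r⟩ := by
      simp only [Units.val_mul, hy]
      ext <;> simp
      · linear_combination (-4 * (p ^ 2 + q ^ 2 + r ^ 2)) * h64
      all_goals ring
    have h3 : ((e.symm (1, b) : Hˣ) : H) = ((2 * t + 1 : K) : H) * (y * y : Hˣ) := by
      rw [h2]
      ext <;> simp only [re_mul, imI_mul, imJ_mul, imK_mul, re_coe, imI_coe, imJ_coe, imK_coe, hp,
        hq, hr, ht]
      · ring
      · linear_combination -(t * p) * h64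
      · linear_combination -(t * q) * h64
      · linear_combination -(t * r) * h64
    have h4 : ∀ w : Hˣ, e.symm (1, b) = w * w * (uj * x * uj⁻¹ * x) * (y * y) →
        ∃ c : B, b = c ^ 2 := fun w hw => by
      have := congrArg (fun g => (e g).2) hw
      simp only [MulEquiv.apply_symm_apply, map_mul, map_inv, Prod.snd_mul, Prod.snd_inv] at this
      refine ⟨(e w).2 * (e x).2 * (e y).2, ?_⟩
      rw [this, mul_inv_cancel_comm, mul_pow, mul_pow, pow_two, pow_two, pow_two]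
    rcases hn with hn | hn
    · exact h4 1 (Units.ext (by rw [h3, hn, ← h1]; simp))
    · refine h4 ui (Units.ext ?_)
      have : ((ui * ui : Hˣ) : H) = -1 := by ext <;> simp [ui]
      rw [h3, hn, Units.val_mul _ (y * y), Units.val_mul (ui * ui), this, h1]
      simp
  have : ∀ n : ℕ, ∀ b : B, ∃ c : B, b = c ^ 2 ^ n := by
    intro n
    induction n with
    | zero => intro b; exact ⟨b, by simp⟩
    | succ n ih =>
      intro b
      obtain ⟨c, rfl⟩ := ih b
      obtain ⟨d, rfl⟩ := sq c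
      exact ⟨d, by rw [← pow_mul, pow_succ']⟩
  have one : ∀ b : B, b = 1 := fun b => by
    obtain ⟨c, rfl⟩ := this 6 b
    have := congrArg (fun g => (e g).2) (expo (e.symm (1, c)))
    simpa using this
  exact ⟨fun a b => by rw [one a, one b]⟩

theorem indec : Indec Hˣ := by
  rintro A B _ _ ⟨e⟩
  by_cases ha : ∃ a, ¬ Ev (e.symm (a, 1) : Hˣ)
  · obtain ⟨a, ha⟩ := ha
    exact Or.inr (half e a ha)
  by_cases hb : ∃ b, ¬ Ev (e.symm (1, b) : Hˣ)
  · obtain ⟨b, hb⟩ := hb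
    exact Or.inl (half (e.trans MulEquiv.prodComm) b hb)
  push Not at ha hb
  obtain ⟨a1, a2, a3, h1, h2, h3⟩ := ha (e ui).1
  obtain ⟨b1, b2, b3, k1, k2, k3⟩ := hb (e ui).2
  have : ui = e.symm ((e ui).1, 1) * e.symm (1, (e ui).2) := by rw [← map_mul]; simp
  have h := congrArg (fun g : Hˣ => (g : H).imI) this
  simp only [Units.val_mul, imI_mul, h1, h2, h3, k1, k2, k3] at h
  generalize ((e.symm ((e ui).1, 1) : Hˣ) : H).re = c at h
  generalize ((e.symm (1, (e ui).2) : Hˣ) : H).re = d at h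
  have h0 : (ui : H).imI = 1 := rfl
  exact absurd ⟨c * b1 + a1 * d + 2 * a2 * b3 - 2 * a3 * b2, by linear_combination h - h0⟩
    (by decide +kernel : ¬ ∃ a : K, 1 = 2 * a)

theorem invol (z : Hˣ) (hz : ∀ g, g * z = z * g) (h1 : z ^ 2 ≠ 1) (h2 : (z ^ 2) ^ 2 = 1) :
    ((z ^ 2 : Hˣ) : H) = ((33 : K) : H) := by
  obtain ⟨p, q, r, hp, hq, hr, t, ht⟩ := cen z hz
  have h : ((z ^ 2 : Hˣ) : H) = (((2 * t + 1) ^ 2 : K) : H) := by
    rw [pow_two, Units.val_mul]
    ext <;> simp only [re_mul, imI_mul, imJ_mul, imK_mul, hp, hq, hr, ht, re_coe, imI_coe, imJ_coe,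
      imK_coe]
    · linear_combination (-16 * (p ^ 2 + q ^ 2 + r ^ 2)) * h64
    · linear_combination ((2 * t + 1) * p) * h64
    · linear_combination ((2 * t + 1) * q) * h64
    · linear_combination ((2 * t + 1) * r) * h64
  have e1 : (2 * t + 1) ^ 2 ≠ 1 := fun e => h1 (Units.ext (by rw [h, e]; rfl))
  have e2 : ((2 * t + 1) ^ 2) ^ 2 = 1 := by
    have := congrArg Units.val h2
    rw [Units.val_pow_eq_pow_val, h, ← coe_pow] at this
    exact coe_injective this
  rw [h, (by decide +kernel : ∀ a : K, a ^ 2 ≠ 1 → (a ^ 2) ^ 2 = 1 → a ^ 2 = 33) _ e1 e2]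

theorem not2 : ¬ Realizable Hˣ 2 := by
  rintro ⟨R, _, _, hR, ⟨e⟩⟩
  have h2 : (1 + 1 : R) = 0 := by
    have := addOrderOf_nsmul_eq_zero (1 : R)
    rwa [hR, two_nsmul] at this
  have fr : ∀ (y : R) (k : ℕ), (1 + y) ^ 2 ^ k = 1 + y ^ 2 ^ k := by
    intro y k
    induction k with
    | zero => simp
    | succ k ih =>
      rw [pow_succ, pow_mul, pow_mul, ih, pow_two, pow_two]
      generalize y ^ 2 ^ k = v
      rw [show (1 + v) * (1 + v) = 1 + v * v + (1 + 1) * v by noncomm_ring, h2, zero_mul, add_zero]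
  set g := e.symm five with hg
  obtain ⟨x, hx⟩ : ∃ x : R, (g : R) = 1 + x := ⟨g - 1, by simp⟩
  have p5 : ∀ n : ℕ, five ^ n = 1 ↔ (5 : K) ^ n = 1 := fun n => by
    rw [Units.ext_iff, Units.val_pow_eq_pow_val]
    change ((5 : K) : H) ^ n = ((1 : K) : H) ↔ _
    rw [← coe_pow, coe_inj]
  have pk : ∀ k : ℕ, x ^ 2 ^ k = 0 ↔ (5 : K) ^ 2 ^ k = 1 := fun k => by
    rw [← p5, ← e.symm.map_eq_one_iff, map_pow, ← hg, Units.ext_iff, Units.val_pow_eq_pow_val, hx,
      fr]
    simp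
  have x16 : x ^ 16 = 0 := (pk 4).2 (by decide)
  have x8 : x ^ 8 ≠ 0 := fun h => absurd ((pk 3).1 h) (by decide)
  have hcom : ∀ h : Rˣ, Commute (h : R) x := fun h => by
    have : h * g = g * h := by
      apply e.injective
      rw [map_mul, map_mul, hg, e.apply_symm_apply]
      exact Units.ext (coe_commutes _ _).symm
    have := congrArg Units.val this
    rw [Units.val_mul, Units.val_mul, hx, mul_add, add_mul, mul_one, one_mul] at this
    exact add_left_cancel this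
  have key : ∀ n, 1 ≤ n → x ^ (2 * n) ≠ 0 → x ^ (4 * n) = 0 → ∃ u : Rˣ,
      (u : R) = 1 + x ^ (2 * n) ∧ (e u : H) = ((33 : K) : H) := by
    intro n hn k1 k2
    have : (1 + x ^ n) ^ 2 ^ 4 = 1 := by
      rw [fr, ← pow_mul, mul_comm, pow_mul, show x ^ 2 ^ 4 = 0 from x16, zero_pow (by omega),
        add_zero]
    obtain ⟨u, hu⟩ := IsUnit.of_pow_eq_one this (by norm_num)
    have hu2 : ((u ^ 2 : Rˣ) : R) = 1 + x ^ (2 * n) := by
      rw [Units.val_pow_eq_pow_val, hu, mul_comm, pow_mul]; exact fr _ 1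
    refine ⟨u ^ 2, hu2, ?_⟩
    rw [map_pow]
    refine invol _ (fun w => ?_) ?_ ?_
    · obtain ⟨w, rfl⟩ := e.surjective w
      rw [← map_mul, ← map_mul]
      congr 1
      exact Units.ext (by
        rw [Units.val_mul, Units.val_mul, hu]
        exact ((Commute.one_right _).add_right ((hcom w).pow_right n)).eq)
    · rw [← map_pow, Ne, e.map_eq_one_iff, Units.ext_iff, hu2]
      simpa using k1
    · rw [← map_pow, ← map_pow, e.map_eq_one_iff, Units.ext_iff, Units.val_pow_eq_pow_val, hu2]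
      have := fr (x ^ (2 * n)) 1
      rw [pow_one, ← pow_mul, show 2 * n * 2 = 4 * n by ring, k2, add_zero] at this
      exact this
  have fin : ∀ a, 3 ≤ a → x ^ (2 * (a + 1)) ≠ 0 → x ^ (2 * (a + 2)) ≠ 0 := by
    intro a ha k1 k2
    obtain ⟨u, hu, hu'⟩ := key (a + 1) (by omega) k1 (pow_eq_zero_of_le (by omega) k2)
    obtain ⟨v, hv, hv'⟩ := key a (by omega) (fun h => k1 (pow_eq_zero_of_le (by omega) h))
      (pow_eq_zero_of_le (by omega) k2)
    have : u = v := e.injective (Units.ext (hu'.trans hv'.symm))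
    rw [this, hv, add_right_inj] at hu
    apply k1
    rw [show 2 * (a + 2) = 2 * (a + 1) + 2 by ring, pow_add, ← hu, ← pow_add] at k2
    exact k2
  exact fin 6 (by omega) (fin 5 (by omega) (fin 4 (by omega) (fin 3 (by omega) x8))) x16

theorem result : ∃ (G : Type) (_ : Group G) (m : ℕ), Finite G ∧ (∃ k, Nat.card G = 2 ^ k) ∧
    Indec G ∧ 2 ≤ m ∧ Realizable G (2 ^ m) ∧ ¬ Realizable G 2 := by
  refine ⟨Hˣ, inferInstance, 6, inferInstance, ?_, indec, by norm_num,
    ⟨H, inferInstance, inferInstance, ?_, ⟨MulEquiv.refl _⟩⟩, not2⟩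
  · exact IsPGroup.iff_card.1 fun g => ⟨6, expo g⟩
  · have := addOrderOf_injective (algebraMap K H).toAddMonoidHom coe_injective 1
    rw [ZMod.addOrderOf_one] at this
    simpa using this

end Pool.Agent.Results.MP_aafbbc_al.Quat64
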